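import Mathlib

/-!
# A self-shuffling word with exactly one steering word (MP_814ec7_co, Q1)

The word `X` over the seven letters `0, ..., 6` is the one steered by
`s = 1^7 2^5 (211221)^ω`.  Writing `i`, `j` for the numbers of letters already taken from the first
and from the second copy, we show

* along this steering word `X i ≠ X j` at every time `n ≥ 8`, so no other choice is possible, and
* whenever `X m = X 0` with `m ≥ 8`, starting the second copy at time `m` leads to a dead end after
  at most five further letters.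

Both facts are finite checks on the factors `X (3 t + 5), ..., X (3 t + 12)`, `t ≥ 1`, of which there
are only 42.
-/

set_option autoImplicit false

namespace Pool.Agent.Results.MP_814ec7_co.UniqueSteering

/-- `x[N]`: the infinite word `x` read along the set `N` in increasing order. -/
noncomputable def readAlong {A : Type} (x : ℕ → A) (N : Set ℕ) : ℕ → A :=
  fun k => x (Nat.nth (fun n => n ∈ N) k)

/-- `ℕ` is the disjoint union of the two infinite sets `N 0`, `N 1` (called `N^1`, `N^2` in the
problem) and reading `x` along either of them gives `x` back. -/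
def IsSplitting {A : Type} (x : ℕ → A) (N : Fin 2 → Set ℕ) : Prop :=
  (∀ j, (N j).Infinite) ∧ Disjoint (N 0) (N 1) ∧ N 0 ∪ N 1 = Set.univ ∧
    ∀ j, readAlong x (N j) = x

/-- The word `x` is self-shuffling. -/
def SelfShuffling {A : Type} (x : ℕ → A) : Prop := ∃ N : Fin 2 → Set ℕ, IsSplitting x N

/-- `s` is the steering word of some splitting: `s n = j` iff `n ∈ N j`. -/
def IsSteeringWord {A : Type} (x : ℕ → A) (s : ℕ → Fin 2) : Prop :=
  ∃ N : Fin 2 → Set ℕ, IsSplitting x N ∧ ∀ n j, s n = j ↔ n ∈ N j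

/-- Exactly one steering word takes its first letter from the first copy. -/
def AdmitsUniqueSteeringWord {A : Type} (x : ℕ → A) : Prop :=
  ∃! s : ℕ → Fin 2, s 0 = 0 ∧ IsSteeringWord x s

/-- working form of `IsSteeringWord`, see `isSteeringWord_iff` -/
def IsSteering {A : Type} (x : ℕ → A) (s : ℕ → Fin 2) : Prop :=
  ∀ j : Fin 2, {n | s n = j}.Infinite ∧ ∀ k, x (Nat.nth (fun n => s n = j) k) = x k

lemma isSteeringWord_iff {A : Type} (x : ℕ → A) (s : ℕ → Fin 2) :
    IsSteeringWord x s ↔ IsSteering x s := by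
  constructor
  · rintro ⟨N, ⟨h1, -, -, h4⟩, h5⟩ j
    have hN : N j = {n | s n = j} := by
      ext n; exact (h5 n j).symm
    have h6 := h4 j
    have h7 := h1 j
    rw [hN] at h6 h7
    exact ⟨h7, fun k => congrFun h6 k⟩
  · intro h
    refine ⟨fun j => {n | s n = j}, ⟨fun j => (h j).1, ?_, ?_, fun j => ?_⟩, fun n j => Iff.rfl⟩
    · rw [Set.disjoint_left]
      intro n hn hn'
      simp only [Set.mem_ofPred_eq] at hn hn'
      rw [hn] at hn'
      exact absurd hn' (by decide)
    · ext n
      simp only [Set.mem_union, Set.mem_ofPred_eq, Set.mem_univ, iff_true]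
      generalize s n = a
      revert a; decide
    · funext k
      exact (h j).2 k

/-! ### The word -/

/-- offset inside a block -/
def off : ℕ → ℕ
  | 0 => 5
  | 1 => 7
  | 2 => 8
  | 3 => 6
  | 4 => 7
  | _ => 9

/-- position of which position `n ≥ 7` is a copy -/
def src (n : ℕ) : ℕ := if n < 12 then n - 7 else 3 * ((n - 12) / 6) + off ((n - 12) % 6)

lemma off_le (r : ℕ) : off r ≤ 9 := by
  unfold off; split <;> omega

lemma src_lt (n : ℕ) (h : ¬ n < 7) : src n < n := by
  unfold src
  have := off_le ((n - 12) % 6)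
  split
  · omega
  · have h6 := Nat.div_add_mod (n - 12) 6
    rcases Nat.eq_zero_or_pos ((n - 12) / 6) with h0 | h0
    · rw [h0]; omega
    · omega

/-- the word -/
def X (n : ℕ) : Fin 7 := if h : n < 7 then ⟨n, h⟩ else X (src n)
termination_by n
decreasing_by exact src_lt n h

lemma X_small (n : ℕ) (h : n < 7) : X n = ⟨n, h⟩ := by
  rw [X, dif_pos h]

lemma X_big (n : ℕ) (h : 7 ≤ n) : X n = X (src n) := by
  rw [X, dif_neg (by omega)]

lemma X_mid (n : ℕ) (h : 7 ≤ n) (h' : n < 12) : X n = X (n - 7) := by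
  rw [X_big n h, src, if_pos h']

lemma X_block (t r : ℕ) (hr : r < 6) : X (12 + 6 * t + r) = X (3 * t + off r) := by
  rw [X_big _ (by omega), src, if_neg (by omega)]
  congr 2
  · congr 1; omega
  · congr 1; omega

/-! ### The steering word and its counting functions -/

/-- pattern of one period: `211221`, written with `0, 1` in place of `1, 2` -/
def pat : ℕ → Fin 2
  | 0 => 1
  | 1 => 0
  | 2 => 0
  | 3 => 1
  | 4 => 1
  | _ => 0

/-- the steering word -/
def S (n : ℕ) : Fin 2 := if n < 7 then 0 else if n < 12 then 1 else pat ((n - 12) % 6)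

/-- partial counts of `0` in the pattern -/
def c0 : ℕ → ℕ
  | 0 => 0
  | 1 => 0
  | 2 => 1
  | 3 => 2
  | 4 => 2
  | _ => 2

/-- number of letters taken from the first copy before time `n` -/
def I (n : ℕ) : ℕ :=
  if n < 7 then n else if n < 12 then 7 else 3 * ((n - 12) / 6) + 7 + c0 ((n - 12) % 6)

/-- number of letters taken from the second copy before time `n` -/
def J (n : ℕ) : ℕ := n - I n

lemma I_block (t r : ℕ) (hr : r < 6) : I (12 + 6 * t + r) = 3 * t + 7 + c0 r := by
  unfold I
  rw [if_neg (by omega), if_neg (by omega)]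
  have h1 : (12 + 6 * t + r - 12) / 6 = t := by omega
  have h2 : (12 + 6 * t + r - 12) % 6 = r := by omega
  rw [h1, h2]

lemma S_block (t r : ℕ) (hr : r < 6) : S (12 + 6 * t + r) = pat r := by
  unfold S
  rw [if_neg (by omega), if_neg (by omega)]
  have h2 : (12 + 6 * t + r - 12) % 6 = r := by omega
  rw [h2]

lemma exists_block (n : ℕ) (h : 12 ≤ n) : ∃ t r, r < 6 ∧ n = 12 + 6 * t + r :=
  ⟨(n - 12) / 6, (n - 12) % 6, Nat.mod_lt _ (by norm_num), by omega⟩

lemma I_le (n : ℕ) : I n ≤ n := by
  by_cases h : n < 12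
  · unfold I; split_ifs <;> omega
  · obtain ⟨t, r, hr, rfl⟩ := exists_block n (by omega)
    rw [I_block t r hr]
    have : c0 r ≤ 2 := by unfold c0; split <;> omega
    omega

lemma I_succ (n : ℕ) : I (n + 1) = I n + if S n = 0 then 1 else 0 := by
  by_cases h : n < 12
  · interval_cases n <;> decide
  · obtain ⟨t, r, hr, rfl⟩ := exists_block n (by omega)
    by_cases h5 : r = 5
    · subst h5
      have h1 : 12 + 6 * t + 5 + 1 = 12 + 6 * (t + 1) + 0 := by ring
      rw [h1, I_block (t + 1) 0 (by norm_num), I_block t 5 hr, S_block t 5 hr]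
      simp [c0, pat]; ring
    · rw [show 12 + 6 * t + r + 1 = 12 + 6 * t + (r + 1) by ring, I_block t (r + 1) (by omega),
        I_block t r hr, S_block t r hr]
      have : r < 5 := by omega
      interval_cases r <;> simp [c0, pat]

lemma count_zero (n : ℕ) : Nat.count (fun m => S m = 0) n = I n := by
  induction n with
  | zero => simp [I]
  | succ n ih => rw [Nat.count_succ, ih, I_succ]

lemma fin2_ne_zero_iff (a : Fin 2) : a = 1 ↔ ¬ a = 0 := by
  revert a; decide

lemma count_add (s : ℕ → Fin 2) (n : ℕ) :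
    Nat.count (fun m => s m = 0) n + Nat.count (fun m => s m = 1) n = n := by
  induction n with
  | zero => simp
  | succ n ih =>
    rw [Nat.count_succ, Nat.count_succ]
    rcases (show s n = 0 ∨ s n = 1 by generalize s n = a; revert a; decide) with h | h
    · simp [h]; omega
    · simp [h]; omega

lemma count_one (n : ℕ) : Nat.count (fun m => S m = 1) n = J n := by
  have h1 := count_add S n
  have h2 := count_zero n
  have h3 := I_le n
  unfold J
  omega

/-! ### Local form of the steering condition -/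

lemma isSteering_iff {A : Type} (x : ℕ → A) (s : ℕ → Fin 2) :
    IsSteering x s ↔ (∀ j : Fin 2, {n | s n = j}.Infinite) ∧
      ∀ n, x n = x (Nat.count (fun m => s m = s n) n) := by
  constructor
  · intro h
    refine ⟨fun j => (h j).1, fun n => ?_⟩
    have h2 := (h (s n)).2 (Nat.count (fun m => s m = s n) n)
    rw [Nat.nth_count (p := fun m => s m = s n) rfl] at h2
    exact h2
  · rintro ⟨h1, h2⟩ j
    refine ⟨h1 j, fun k => ?_⟩
    have h3 := h2 (Nat.nth (fun n => s n = j) k)
    have h4 : s (Nat.nth (fun n => s n = j) k) = j := Nat.nth_mem_of_infinite (h1 j) k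
    rw [h4, Nat.count_nth_of_infinite (h1 j)] at h3
    exact h3

/-! ### The word is steered by `S` -/

lemma steer_local (n : ℕ) :
    (S n = 0 → X n = X (I n)) ∧ (S n = 1 → X n = X (J n)) := by
  by_cases h7 : n < 7
  · interval_cases n <;> simp [S, I]
  by_cases h12 : n < 12
  · rw [X_mid n (by omega) h12]
    have : I n = 7 := by unfold I; rw [if_neg h7, if_pos h12]
    have hJ : J n = n - 7 := by unfold J; rw [this]
    rw [hJ]
    refine ⟨fun h => ?_, fun _ => rfl⟩
    unfold S at h
    rw [if_neg h7, if_pos h12] at h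
    exact absurd h (by decide)
  · obtain ⟨t, r, hr, rfl⟩ := exists_block n (by omega)
    rw [X_block t r hr, S_block t r hr, I_block t r hr]
    have hJ : J (12 + 6 * t + r) = 12 + 6 * t + r - (3 * t + 7 + c0 r) := by
      unfold J; rw [I_block t r hr]
    rw [hJ]
    interval_cases r
    · refine ⟨fun h => absurd h (by decide), fun _ => ?_⟩
      congr 1; simp only [off, c0]; omega
    · refine ⟨fun h => ?_, fun h => absurd h (by decide)⟩
      congr 1
    · refine ⟨fun h => ?_, fun h => absurd h (by decide)⟩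
      congr 1
    · refine ⟨fun h => absurd h (by decide), fun _ => ?_⟩
      congr 1; simp only [off, c0]; omega
    · refine ⟨fun h => absurd h (by decide), fun _ => ?_⟩
      congr 1; simp only [off, c0]; omega
    · refine ⟨fun h => ?_, fun h => absurd h (by decide)⟩
      congr 1

lemma S_infinite (j : Fin 2) : {n | S n = j}.Infinite := by
  apply Set.infinite_of_not_bddAbove
  rintro ⟨B, hB⟩
  have hj : j = 0 ∨ j = 1 := by clear hB; revert j; decide
  rcases hj with h | h
  · have : S (12 + 6 * B + 1) = j := by rw [S_block B 1 (by norm_num), h]; rfl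
    have := hB this
    omega
  · have : S (12 + 6 * B + 0) = j := by rw [S_block B 0 (by norm_num), h]; rfl
    have := hB this
    omega

lemma isSteering_S : IsSteering X S := by
  rw [isSteering_iff]
  refine ⟨S_infinite, fun n => ?_⟩
  rcases (show S n = 0 ∨ S n = 1 by generalize S n = a; revert a; decide) with h | h
  · rw [h, count_zero]; exact (steer_local n).1 h
  · rw [h, count_one]; exact (steer_local n).2 h

/-! ### The windows `X (3 t + 5), ..., X (3 t + 12)` -/

/-- the window of length 8 -/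
def W (t : ℕ) : List (Fin 7) :=
  [X (3 * t + 5), X (3 * t + 6), X (3 * t + 7), X (3 * t + 8), X (3 * t + 9), X (3 * t + 10),
    X (3 * t + 11), X (3 * t + 12)]

/-- `W (2 t + 2)` in terms of `W t` -/
def f0 : List (Fin 7) → List (Fin 7)
  | [a0, a1, a2, a3, a4, _, _, _] => [a1, a0, a2, a3, a1, a2, a4, a3]
  | _ => []

/-- `W (2 t + 3)` in terms of `W t` -/
def f1 : List (Fin 7) → List (Fin 7)
  | [_, a1, a2, a3, a4, a5, a6, _] => [a3, a1, a2, a4, a3, a5, a6, a4]
  | _ => []

/-- the list of all windows `W t`, `t ≥ 1` -/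
def F : List (List (Fin 7)) :=
 [[1,2,0,6,1,0,2,6],
 [1,2,3,4,1,3,2,4],
 [1,2,3,4,5,0,1,6],
 [1,4,0,5,1,0,4,5],
 [1,4,0,5,1,0,6,5],
 [1,4,3,2,1,3,4,2],
 [1,5,0,4,1,0,5,4],
 [1,5,0,6,1,0,2,6],
 [1,5,0,6,1,0,5,6],
 [1,6,0,2,1,0,6,2],
 [1,6,0,2,1,3,4,2],
 [1,6,0,5,1,0,6,5],
 [2,1,0,6,2,0,1,6],
 [2,1,3,4,2,3,1,4],
 [2,1,3,4,2,3,5,4],
 [2,4,3,1,2,3,4,1],
 [2,4,3,5,2,3,4,5],
 [2,5,3,4,2,3,5,4],
 [2,6,0,1,2,0,6,1],
 [2,6,0,1,2,3,4,1],
 [4,1,0,5,4,0,1,5],
 [4,1,3,2,4,3,1,2],
 [4,1,3,2,4,3,5,2],
 [4,2,3,1,4,3,2,1],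
 [4,2,3,5,4,0,1,5],
 [4,2,3,5,4,3,2,5],
 [4,5,0,1,4,0,5,1],
 [4,5,0,1,6,0,2,1],
 [4,5,3,2,4,3,5,2],
 [5,1,0,4,5,0,1,4],
 [5,1,0,6,5,0,1,6],
 [5,2,3,4,5,0,1,4],
 [5,2,3,4,5,3,2,4],
 [5,4,0,1,5,0,4,1],
 [5,4,0,1,5,0,6,1],
 [5,4,3,2,5,3,4,2],
 [5,6,0,1,5,0,6,1],
 [6,1,0,2,6,0,1,2],
 [6,1,0,5,6,0,1,5],
 [6,2,0,1,6,0,2,1],
 [6,5,0,1,6,0,2,1],
 [6,5,0,1,6,0,5,1]]

lemma F_closed : ∀ w ∈ F, f0 w ∈ F ∧ f1 w ∈ F := by decide +kernel

lemma Xb (n t r : ℕ) (hr : r < 6) (h : n = 12 + 6 * t + r) : X n = X (3 * t + off r) := by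
  subst h; exact X_block t r hr

lemma W_even (t : ℕ) (ht : 1 ≤ t) : W (2 * t + 2) = f0 (W t) := by
  simp only [W, f0]
  obtain ⟨u, rfl⟩ : ∃ u, t = u + 1 := ⟨t - 1, by omega⟩
  have e0 : X (3 * (2 * (u + 1) + 2) + 5) = X (3 * (u + 1) + 6) := by
    rw [Xb _ u 5 (by norm_num) (by ring)]; congr 1
  have e1 : X (3 * (2 * (u + 1) + 2) + 6) = X (3 * (u + 1) + 5) := by
    rw [Xb _ (u + 1) 0 (by norm_num) (by ring)]; congr 1
  have e2 : X (3 * (2 * (u + 1) + 2) + 7) = X (3 * (u + 1) + 7) := by
    rw [Xb _ (u + 1) 1 (by norm_num) (by ring)]; congr 1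
  have e3 : X (3 * (2 * (u + 1) + 2) + 8) = X (3 * (u + 1) + 8) := by
    rw [Xb _ (u + 1) 2 (by norm_num) (by ring)]; congr 1
  have e4 : X (3 * (2 * (u + 1) + 2) + 9) = X (3 * (u + 1) + 6) := by
    rw [Xb _ (u + 1) 3 (by norm_num) (by ring)]; congr 1
  have e5 : X (3 * (2 * (u + 1) + 2) + 10) = X (3 * (u + 1) + 7) := by
    rw [Xb _ (u + 1) 4 (by norm_num) (by ring)]; congr 1
  have e6 : X (3 * (2 * (u + 1) + 2) + 11) = X (3 * (u + 1) + 9) := by
    rw [Xb _ (u + 1) 5 (by norm_num) (by ring)]; congr 1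
  have e7 : X (3 * (2 * (u + 1) + 2) + 12) = X (3 * (u + 1) + 8) := by
    rw [Xb _ (u + 2) 0 (by norm_num) (by ring)]; congr 1
  rw [e0, e1, e2, e3, e4, e5, e6, e7]

lemma W_odd (t : ℕ) : W (2 * t + 3) = f1 (W t) := by
  simp only [W, f1]
  have e0 : X (3 * (2 * t + 3) + 5) = X (3 * t + 8) := by
    rw [Xb _ t 2 (by norm_num) (by ring)]; congr 1
  have e1 : X (3 * (2 * t + 3) + 6) = X (3 * t + 6) := by
    rw [Xb _ t 3 (by norm_num) (by ring)]; congr 1
  have e2 : X (3 * (2 * t + 3) + 7) = X (3 * t + 7) := by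
    rw [Xb _ t 4 (by norm_num) (by ring)]; congr 1
  have e3 : X (3 * (2 * t + 3) + 8) = X (3 * t + 9) := by
    rw [Xb _ t 5 (by norm_num) (by ring)]; congr 1
  have e4 : X (3 * (2 * t + 3) + 9) = X (3 * t + 8) := by
    rw [Xb _ (t + 1) 0 (by norm_num) (by ring)]; congr 1
  have e5 : X (3 * (2 * t + 3) + 10) = X (3 * t + 10) := by
    rw [Xb _ (t + 1) 1 (by norm_num) (by ring)]; congr 1
  have e6 : X (3 * (2 * t + 3) + 11) = X (3 * t + 11) := by
    rw [Xb _ (t + 1) 2 (by norm_num) (by ring)]; congr 1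
  have e7 : X (3 * (2 * t + 3) + 12) = X (3 * t + 9) := by
    rw [Xb _ (t + 1) 3 (by norm_num) (by ring)]; congr 1
  rw [e0, e1, e2, e3, e4, e5, e6, e7]

/-! first values -/

lemma X0 : X 0 = 0 := by rw [X_small 0 (by norm_num)]; rfl
lemma X1 : X 1 = 1 := by rw [X_small 1 (by norm_num)]; rfl
lemma X2 : X 2 = 2 := by rw [X_small 2 (by norm_num)]; rfl
lemma X3 : X 3 = 3 := by rw [X_small 3 (by norm_num)]; rfl
lemma X4 : X 4 = 4 := by rw [X_small 4 (by norm_num)]; rfl
lemma X5 : X 5 = 5 := by rw [X_small 5 (by norm_num)]; rfl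
lemma X6 : X 6 = 6 := by rw [X_small 6 (by norm_num)]; rfl
lemma X7 : X 7 = 0 := by rw [X_mid 7 (by norm_num) (by norm_num)]; exact X0
lemma X8 : X 8 = 1 := by rw [X_mid 8 (by norm_num) (by norm_num)]; exact X1
lemma X9 : X 9 = 2 := by rw [X_mid 9 (by norm_num) (by norm_num)]; exact X2
lemma X10 : X 10 = 3 := by rw [X_mid 10 (by norm_num) (by norm_num)]; exact X3
lemma X11 : X 11 = 4 := by rw [X_mid 11 (by norm_num) (by norm_num)]; exact X4
lemma X12 : X 12 = 5 := by rw [Xb 12 0 0 (by norm_num) (by norm_num)]; exact X5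
lemma X13 : X 13 = 0 := by rw [Xb 13 0 1 (by norm_num) (by norm_num)]; exact X7
lemma X14 : X 14 = 1 := by rw [Xb 14 0 2 (by norm_num) (by norm_num)]; exact X8
lemma X15 : X 15 = 6 := by rw [Xb 15 0 3 (by norm_num) (by norm_num)]; exact X6
lemma X16 : X 16 = 0 := by rw [Xb 16 0 4 (by norm_num) (by norm_num)]; exact X7
lemma X17 : X 17 = 2 := by rw [Xb 17 0 5 (by norm_num) (by norm_num)]; exact X9
lemma X18 : X 18 = 1 := by rw [Xb 18 1 0 (by norm_num) (by norm_num)]; exact X8

lemma W0_eq : W 0 = [5, 6, 0, 1, 2, 3, 4, 5] := by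
  simp only [W, Nat.mul_zero, Nat.zero_add, X5, X6, X7, X8, X9, X10, X11, X12]

lemma W1_mem : W 1 ∈ F := by
  have : W 1 = [1, 2, 3, 4, 5, 0, 1, 6] := by
    simp only [W, Nat.mul_one, Nat.reduceAdd, X8, X9, X10, X11, X12, X13, X14, X15]
  rw [this]; decide +kernel

lemma W2_mem : W 2 ∈ F := by
  have : W 2 = [4, 5, 0, 1, 6, 0, 2, 1] := by
    simp only [W, Nat.reduceMul, Nat.reduceAdd, X11, X12, X13, X14, X15, X16, X17, X18]
  rw [this]; decide +kernel

lemma W_mem (t : ℕ) (ht : 1 ≤ t) : W t ∈ F := by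
  induction t using Nat.strong_induction_on with
  | _ t ih =>
    rcases Nat.lt_or_ge t 4 with h | h
    · interval_cases t
      · exact W1_mem
      · exact W2_mem
      · rw [show 3 = 2 * 0 + 3 by norm_num, W_odd, W0_eq]; decide +kernel
    · rcases Nat.even_or_odd' t with ⟨u, hu | hu⟩
      · obtain ⟨v, rfl⟩ : ∃ v, u = v + 1 := ⟨u - 1, by omega⟩
        have : t = 2 * v + 2 := by omega
        subst this
        rw [W_even v (by omega)]
        exact (F_closed _ (ih v (by omega) (by omega))).1
      · obtain ⟨v, rfl⟩ : ∃ v, u = v + 1 := ⟨u - 1, by omega⟩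
        have : t = 2 * v + 3 := by omega
        subst this
        rw [W_odd v]
        exact (F_closed _ (ih v (by omega) (by omega))).2

/-! ### No branching along the main path -/

/-- the six inequalities -/
def nb : List (Fin 7) → Bool
  | [a0, a1, a2, a3, a4, _, _, _] =>
      a2 ≠ a0 ∧ a2 ≠ a1 ∧ a3 ≠ a1 ∧ a4 ≠ a1 ∧ a4 ≠ a2 ∧ a4 ≠ a3
  | _ => false

lemma nb_F : ∀ w ∈ F, nb w = true := by decide +kernel

lemma nb_W (t : ℕ) : nb (W t) = true := by
  rcases Nat.eq_zero_or_pos t with h | h
  · subst h; rw [W0_eq]; decide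
  · exact nb_F _ (W_mem t h)

lemma no_branch (n : ℕ) (hn : 8 ≤ n) : X (I n) ≠ X (J n) := by
  by_cases h12 : n < 12
  · have hI : I n = 7 := by unfold I; rw [if_neg (by omega), if_pos h12]
    have hJ : J n = n - 7 := by unfold J; rw [hI]
    rw [hI, hJ, X7]
    interval_cases n
    · rw [show 8 - 7 = 1 by norm_num, X1]; decide
    · rw [show 9 - 7 = 2 by norm_num, X2]; decide
    · rw [show 10 - 7 = 3 by norm_num, X3]; decide
    · rw [show 11 - 7 = 4 by norm_num, X4]; decide
  · obtain ⟨t, r, hr, rfl⟩ := exists_block n (by omega)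
    have hI := I_block t r hr
    have hJ : J (12 + 6 * t + r) = 12 + 6 * t + r - (3 * t + 7 + c0 r) := by
      unfold J; rw [hI]
    have hb := nb_W t
    simp only [W, nb, decide_eq_true_eq] at hb
    obtain ⟨h1, h2, h3, h4, h5, h6⟩ := hb
    rw [hI, hJ]
    interval_cases r
    · convert h1 using 2 <;> first | rfl | (simp only [c0]; omega)
    · convert h2 using 2 <;> first | rfl | (simp only [c0]; omega)
    · convert h3 using 2 <;> first | rfl | (simp only [c0]; omega)
    · convert h4 using 2 <;> first | rfl | (simp only [c0]; omega)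
    · convert h5 using 2 <;> first | rfl | (simp only [c0]; omega)
    · convert h6 using 2 <;> first | rfl | (simp only [c0]; omega)

/-! ### The branches leaving the row `j = 0` late are dead -/

/-- there is a legal continuation of length `L` from the state `(a, b)` -/
def alive : ℕ → ℕ → ℕ → Prop
  | 0, _, _ => True
  | L + 1, a, b => (X (a + b) = X a ∧ alive L (a + 1) b) ∨ (X (a + b) = X b ∧ alive L a (b + 1))

/-- the same, read off a window -/
def aliveW (w : List (Fin 7)) (d : ℕ) : ℕ → ℕ → ℕ → Bool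
  | 0, _, _ => true
  | L + 1, a, b =>
      (w.getD (d + a + b) 0 == w.getD (d + a) 0 && aliveW w d L (a + 1) b) ||
        (w.getD (d + a + b) 0 == Fin.ofNat 7 b && aliveW w d L a (b + 1))

lemma aliveW_F : ∀ w ∈ F, ∀ d < 3, w.getD d 0 = 0 → aliveW w d 5 0 1 = false := by
  decide +kernel

lemma W_getD (t k : ℕ) (hk : k < 8) : (W t).getD k 0 = X (3 * t + 5 + k) := by
  interval_cases k <;> rfl

lemma X_ofNat (b : ℕ) (hb : b < 7) : X b = Fin.ofNat 7 b := by
  rw [X_small b hb]
  apply Fin.ext
  simp [Fin.ofNat, Nat.mod_eq_of_lt hb]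

lemma aliveW_of_alive (t d : ℕ) :
    ∀ L a b, d + a + b + L ≤ 8 → b + L ≤ 7 → alive L (3 * t + 5 + d + a) b →
      aliveW (W t) d L a b = true := by
  intro L
  induction L with
  | zero => intro a b _ _ _; rfl
  | succ L ih =>
    intro a b h1 h2 h
    simp only [alive] at h
    simp only [aliveW, Bool.or_eq_true, Bool.and_eq_true, beq_iff_eq]
    rw [W_getD t (d + a + b) (by omega), W_getD t (d + a) (by omega)]
    have e1 : 3 * t + 5 + (d + a + b) = 3 * t + 5 + d + a + b := by ring
    have e2 : 3 * t + 5 + (d + a) = 3 * t + 5 + d + a := by ring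
    rw [e1, e2, ← X_ofNat b (by omega)]
    rcases h with ⟨h3, h4⟩ | ⟨h3, h4⟩
    · left
      refine ⟨h3, ih (a + 1) b (by omega) (by omega) ?_⟩
      rw [show 3 * t + 5 + d + (a + 1) = 3 * t + 5 + d + a + 1 by ring]
      exact h4
    · right
      exact ⟨h3, ih a (b + 1) (by omega) (by omega) h4⟩

lemma dead (m : ℕ) (hm : 8 ≤ m) (h0 : X m = 0) : ¬ alive 5 m 1 := by
  intro h
  obtain ⟨t, d, ht, hd, rfl⟩ : ∃ t d, 1 ≤ t ∧ d < 3 ∧ m = 3 * t + 5 + d :=
    ⟨(m - 5) / 3, (m - 5) % 3, by omega, Nat.mod_lt _ (by norm_num), by omega⟩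
  have h1 := aliveW_of_alive t d 5 0 1 (by omega) (by omega) h
  have h2 := aliveW_F (W t) (W_mem t ht) d hd (by rw [W_getD t d (by omega)]; exact h0)
  rw [h1] at h2
  exact absurd h2 (by decide)

/-! ### Uniqueness -/

lemma alive_of_steering (s : ℕ → Fin 2) (hs : IsSteering X s) (L : ℕ) :
    ∀ n, alive L (Nat.count (fun m => s m = 0) n) (Nat.count (fun m => s m = 1) n) := by
  have hloc := ((isSteering_iff X s).1 hs).2
  induction L with
  | zero => intro n; trivial
  | succ L ih =>
    intro n
    simp only [alive]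
    rw [count_add s n]
    have h2 := ih (n + 1)
    rw [Nat.count_succ, Nat.count_succ] at h2
    have h3 := hloc n
    rcases (show s n = 0 ∨ s n = 1 by generalize s n = a; revert a; decide) with h | h
    · left
      rw [h] at h3
      simp only [h, if_true, show ((0 : Fin 2) = 1) = False by decide, if_false, Nat.add_zero] at h2
      exact ⟨h3, h2⟩
    · right
      rw [h] at h3
      simp only [h, if_true, show ((1 : Fin 2) = 0) = False by decide, if_false, Nat.add_zero] at h2
      exact ⟨h3, h2⟩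

lemma count_congr_lt (p q : ℕ → Prop) [DecidablePred p] [DecidablePred q] (n : ℕ)
    (h : ∀ m < n, (p m ↔ q m)) : Nat.count p n = Nat.count q n := by
  induction n with
  | zero => simp
  | succ n ih =>
    rw [Nat.count_succ, Nat.count_succ, ih (fun m hm => h m (by omega))]
    simp only [h n (by omega)]

lemma unique (s : ℕ → Fin 2) (h0 : s 0 = 0) (hs : IsSteering X s) : s = S := by
  have hloc := ((isSteering_iff X s).1 hs).2
  have hinf := ((isSteering_iff X s).1 hs).1
  funext n
  induction n using Nat.strong_induction_on with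
  | _ n ih =>
    by_contra hne
    have hc0 : Nat.count (fun m => s m = 0) n = I n := by
      rw [← count_zero n]
      exact count_congr_lt _ _ n (fun m hm => by rw [ih m hm])
    have hc1 : Nat.count (fun m => s m = 1) n = J n := by
      rw [← count_one n]
      exact count_congr_lt _ _ n (fun m hm => by rw [ih m hm])
    have hcase : (s n = 0 ∧ S n = 1) ∨ (s n = 1 ∧ S n = 0) := by
      generalize s n = a at hne
      generalize S n = b at hne
      revert a b; decide
    have hx := hloc n
    rcases Nat.lt_or_ge n 8 with hn | hn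
    · rcases hcase with ⟨h1, h2⟩ | ⟨h1, h2⟩
      · -- here `n = 7`
        have h7 : n = 7 := by
          by_contra h7
          have : S n = 0 := by unfold S; rw [if_pos (by omega)]
          rw [this] at h2
          exact absurd h2 (by decide)
        subst h7
        have hex : ∃ m, 7 ≤ m ∧ s m = 1 := by
          obtain ⟨m, hm1, hm2⟩ := (hinf 1).exists_gt 7
          exact ⟨m, hm2.le, hm1⟩
        classical
        let m := Nat.find hex
        have hm : 7 ≤ m ∧ s m = 1 := Nat.find_spec hex
        have hmin : ∀ k < m, s k = 0 := by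
          intro k hk
          rcases Nat.lt_or_ge k 7 with h | h
          · rw [ih k h]; unfold S; rw [if_pos h]
          · have h3 : ¬ (7 ≤ k ∧ s k = 1) := Nat.find_min hex hk
            have h4 : s k ≠ 1 := fun h5 => h3 ⟨h, h5⟩
            generalize s k = a at h4
            revert a; decide
        have hm8 : 8 ≤ m := by
          rcases Nat.lt_or_ge m 8 with h | h
          · have : m = 7 := by omega
            have h5 := hm.2
            rw [this, h1] at h5
            exact absurd h5 (by decide)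
          · exact h
        have hcm0 : Nat.count (fun k => s k = 0) m = m := by
          rw [Nat.count_iff_forall]
          exact fun k hk => hmin k hk
        have hcm1 : Nat.count (fun k => s k = 1) m = 0 := by
          have := count_add s m
          omega
        have hXm : X m = 0 := by
          have h6 := hloc m
          rw [hm.2, hcm1] at h6
          rw [h6]; exact X0
        have h7 := alive_of_steering s hs 5 (m + 1)
        rw [Nat.count_succ, Nat.count_succ, hcm0, hcm1, hm.2] at h7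
        exact dead m hm8 hXm h7
      · -- here `n < 7`
        have h7 : n < 7 := by
          by_contra h7
          have h8 : n = 7 := by omega
          subst h8
          exact absurd h2 (by decide)
        have hn0 : n ≠ 0 := by
          rintro rfl
          rw [h0] at h1
          exact absurd h1 (by decide)
        rw [h1, hc1] at hx
        have hJ : J n = 0 := by
          unfold J I; rw [if_pos h7]; omega
        rw [hJ, X0, X_small n h7] at hx
        have := congrArg Fin.val hx
        simp at this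
        omega
    · have hS := steer_local n
      rcases hcase with ⟨h1, h2⟩ | ⟨h1, h2⟩
      · rw [h1, hc0] at hx
        exact no_branch n hn (hx.symm.trans (hS.2 h2))
      · rw [h1, hc1] at hx
        exact no_branch n hn ((hS.1 h2).symm.trans hx)

/-- There is an infinite word over a finite alphabet (of seven letters) which is self-shuffling and
admits a unique steering word. -/
theorem result : ∃ x : ℕ → Fin 7, SelfShuffling x ∧ AdmitsUniqueSteeringWord x := by
  refine ⟨X, ?_, S, ⟨by decide, (isSteeringWord_iff X S).2 isSteering_S⟩, fun s hs =>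
    unique s hs.1 ((isSteeringWord_iff X s).1 hs.2)⟩
  obtain ⟨N, hN, -⟩ := (isSteeringWord_iff X S).2 isSteering_S
  exact ⟨N, hN⟩

end Pool.Agent.Results.MP_814ec7_co.UniqueSteering
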